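import Pool.Agent.XG.Final

/-!
# Circuits of constant depth cannot approximate the permanent of a random matrix
-/

set_option autoImplicit false

namespace Pool.Agent.Results.MP_381749_lc.ApproximatePermanent

open Finset MeasureTheory

/-- `F 0, ..., F (s - 1)` are the functions of the complex variables `x v` at the `s` gates of a
circuit with at most `d` product gates or analytic gates on each path. Every gate is a sum gate: a
linear combination of the constant `1`, of the variables and of earlier gates; or a product gate: a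
constant times a product of powers of variables and of earlier gates; or an analytic gate: any
everywhere analytic function of `w` earlier gates. -/
def IsCircuit {σ : Type} [Fintype σ] (d w : ℕ) {s : ℕ} (F : Fin s → (σ → ℂ) → ℂ) : Prop :=
  ∃ depth : Fin s → ℕ, ∀ g, depth g ≤ d ∧
    ((∃ (a₀ : ℂ) (a : σ → ℂ) (c : Fin s → ℂ), (∀ h, c h ≠ 0 → h < g ∧ depth h ≤ depth g) ∧
        F g = fun x => a₀ + ∑ v, a v * x v + ∑ h, c h * F h x) ∨
     (∃ (a₀ : ℂ) (a : σ → ℕ) (e : Fin s → ℕ), 0 < depth g ∧
        (∀ h, e h ≠ 0 → h < g ∧ depth h < depth g) ∧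
        F g = fun x => a₀ * (∏ v, x v ^ a v) * ∏ h, F h x ^ e h) ∨
     (∃ (t : Fin w → Fin s) (φ : (Fin w → ℂ) → ℂ), 0 < depth g ∧
        (∀ i, t i < g ∧ depth (t i) < depth g) ∧ AnalyticOnNhd ℂ φ Set.univ ∧
        F g = fun x => φ fun i => F (t i) x))

/-- The permanent of the matrix with the entries `x (i, j)`. -/
noncomputable def perm {n : ℕ} (x : Fin n × Fin n → ℂ) : ℂ :=
  (Matrix.of fun i j => x (i, j)).permanent

/-- `μ` is the law of a random complex number whose phase is uniformly distributed and independent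
of its absolute value, and whose absolute value has mean square one. -/
def IsLaw (μ : Measure ℂ) : Prop :=
  IsProbabilityMeasure μ ∧ (∀ u : ℂ, ‖u‖ = 1 → μ.map (fun z => u * z) = μ) ∧
    ∫ z, ‖z‖ ^ 2 ∂μ = 1

/-- There is an absolute constant `C` such that for all `1 ≤ m ≤ n` and `d, w ≥ 1`, if
`s + n ^ w < exp (m ^ (1 / (F' - 1)) / C)`, where `F'` is the Fibonacci number of index `2 d + 2`,
then no gate `F g` of a circuit in the entries of a complex `n × n` matrix, with `s` gates and at
most `d` product gates or analytic gates (of fan-in `w`) on each path, approximates the permanent of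
a random matrix `X` with independent entries with rotation invariant laws with second moment one:
the mean square of the permanent is at most `(C n / √m) ^ m` times the mean square error. -/
theorem result : ∃ C : ℝ, 0 < C ∧ ∀ (n m d w s : ℕ), 1 ≤ m → m ≤ n → 1 ≤ d → 1 ≤ w →
    (s : ℝ) + (n : ℝ) ^ w < Real.exp ((m : ℝ) ^ (1 / ((Nat.fib (2 * d + 2) : ℝ) - 1)) / C) →
    ∀ F : Fin s → (Fin n × Fin n → ℂ) → ℂ, IsCircuit d w F → ∀ g : Fin s,
    ∀ μ : Fin n × Fin n → Measure ℂ, (∀ p, IsLaw (μ p)) →
      ∫⁻ X, ‖perm X‖ₑ ^ 2 ∂Measure.pi μ ≤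
        ENNReal.ofReal ((C * n / √m) ^ m) * ∫⁻ X, ‖F g X - perm X‖ₑ ^ 2 ∂Measure.pi μ := by
  obtain ⟨C, hC, H⟩ := Pool.XG.xg_perm
  refine ⟨C, lt_of_lt_of_le one_pos hC, ?_⟩
  intro n m d w s hm hmn hd hw hs F hF g μ hμ
  have hprob : ∀ p, IsProbabilityMeasure (μ p) := fun p => (hμ p).1
  have hn : (0 : ℝ) < n := by exact_mod_cast (hm.trans hmn)
  have hC0 : (0 : ℝ) < C := lt_of_lt_of_le one_pos hC
  obtain ⟨k, rfl⟩ : ∃ k, d = k + 1 := ⟨d - 1, by omega⟩
  have hE : Pool.XG.IsCircuitE (k + 1) w F := by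
    obtain ⟨lev, h⟩ := hF
    refine ⟨lev, fun g => ⟨(h g).1, ?_⟩⟩
    rcases (h g).2 with h1 | h1 | ⟨t, φ, h1, h2, h3, h4⟩
    · exact Or.inl h1
    · exact Or.inr (Or.inl h1)
    · exact Or.inr (Or.inr ⟨t, φ, h1, h2, Pool.XG.entire_of_analytic h3, h4⟩)
  have hs1 : 1 ≤ s := by
    have := g.2
    omega
  have hhom : (Pool.CDep.permP n ℂ).IsHomogeneous n := by
    unfold Pool.CDep.permP Matrix.permanent
    refine MvPolynomial.IsHomogeneous.sum _ _ _ fun σ _ => ?_
    have h1 := MvPolynomial.IsHomogeneous.prod (univ : Finset (Fin n))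
      (fun i => (MvPolynomial.X (σ i, i) : MvPolynomial (Fin n × Fin n) ℂ)) (fun _ => 1)
      fun i _ => MvPolynomial.isHomogeneous_X _ _
    simpa using h1
  have heval : ∀ x : Fin n × Fin n → ℂ,
      MvPolynomial.eval x (Pool.CDep.permP n ℂ) = perm x := by
    intro x
    unfold Pool.CDep.permP perm
    rw [Pool.CDep.map_permanent']
    congr 1
    ext i j
    simp
  have h1 := Pool.XG.rot_lower hhom (B := (√m / (C * n)) ^ m * n.factorial) hE g
    (fun p hp γ => H k w m n s hm hmn hs1 hw (by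
      have h2 : 2 * k + 4 = 2 * (k + 1) + 2 := by ring
      rw [h2]
      exact hs) p hp g γ) μ (fun p => (hμ p).2.1) (fun p => (hμ p).2.2)
  have h2 := Pool.XG.second_moment_perm n μ (fun p => (hμ p).2.1) (fun p => (hμ p).2.2)
  have hen : ∀ z : ℂ, ENNReal.ofReal (‖z‖ ^ 2) = ‖z‖ₑ ^ 2 := by
    intro z
    rw [ENNReal.ofReal_pow (norm_nonneg z), ofReal_norm]
  simp only [heval, hen] at h1 h2
  rw [h2]
  have hm0 : (0 : ℝ) < √m := Real.sqrt_pos.2 (by exact_mod_cast hm)
  calc (n.factorial : ENNReal) = ENNReal.ofReal ((C * n / √m) ^ m) *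
        ENNReal.ofReal ((√m / (C * n)) ^ m * n.factorial) := by
        rw [← ENNReal.ofReal_mul (by positivity), ← mul_assoc, ← mul_pow,
          div_mul_div_cancel₀ hm0.ne', div_self (by positivity), one_pow, one_mul,
          ENNReal.ofReal_natCast]
    _ ≤ _ := mul_le_mul_right h1 _

end Pool.Agent.Results.MP_381749_lc.ApproximatePermanent
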