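import Pool.Agent.XMP.Assembly
import Pool.Agent.XMP.Tests

/-!
# Zero tests for the permanent by circuits of constant depth, and multiples of the permanent
-/

set_option autoImplicit false

namespace Pool.Agent.Results.MP_381749_lc.CircuitTests

open Finset MvPolynomial

/-- `P 0, ..., P (s - 1)` are the polynomials at the `s` gates of an arithmetic circuit over the
field `K` with at most `d` product gates or arbitrary gates on each path. Every gate is a sum
gate: a linear combination of the constant `1`, of the variables and of earlier gates; or a product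
gate: a constant times a product of powers of variables and of earlier gates; or an arbitrary
gate: any polynomial in `w` earlier gates. -/
def IsCircuit {σ K : Type} [Fintype σ] [Field K] (d w : ℕ) {s : ℕ}
    (P : Fin s → MvPolynomial σ K) : Prop :=
  ∃ depth : Fin s → ℕ, ∀ g, depth g ≤ d ∧
    ((∃ (a₀ : K) (a : σ → K) (c : Fin s → K), (∀ h, c h ≠ 0 → h < g ∧ depth h ≤ depth g) ∧
        P g = C a₀ + ∑ v, C (a v) * X v + ∑ h, C (c h) * P h) ∨
     (∃ (a₀ : K) (a : σ → ℕ) (e : Fin s → ℕ), 0 < depth g ∧
        (∀ h, e h ≠ 0 → h < g ∧ depth h < depth g) ∧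
        P g = C a₀ * (∏ v, X v ^ a v) * ∏ h, P h ^ e h) ∨
     (∃ (t : Fin w → Fin s) (Q : MvPolynomial (Fin w) K), 0 < depth g ∧
        (∀ i, t i < g ∧ depth (t i) < depth g) ∧ P g = aeval (fun i => P (t i)) Q))

/-- `f` is computed at a gate of a circuit with `s` gates. -/
def Computed {σ : Type} [Fintype σ] (d w s : ℕ) (K : Type) [Field K] (f : MvPolynomial σ K) :
    Prop :=
  ∃ P : Fin s → MvPolynomial σ K, IsCircuit d w P ∧ ∃ g, P g = f

/-- `G` is a sum of `T` products of powers of `S` polynomials, each of which is computed at a gate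
of a circuit with `s` gates. -/
def SumOfProducts {σ : Type} [Fintype σ] (d w s S T : ℕ) (K : Type) [Field K]
    (G : MvPolynomial σ K) : Prop :=
  ∃ (f : Fin T → Fin S → MvPolynomial σ K) (e : Fin T → Fin S → ℕ),
    (∀ i j, Computed d w s K (f i j)) ∧ G = ∑ i, ∏ j, f i j ^ e i j

/-- The permanent of the `n × n` matrix of variables. -/
noncomputable def perm (n : ℕ) (K : Type) [CommRing K] : MvPolynomial (Fin n × Fin n) K :=
  (Matrix.of fun i j => (X (i, j) : MvPolynomial (Fin n × Fin n) K)).permanent

/-- The polynomials of the class `A` fail for the permanent: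
(1) no number of zero tests decides the permanent: for any number `t` of nonzero polynomials `G_i`
over the complex numbers in the class `A` and for every `R`, there is an integer matrix `X` with
`perm X = 0`, `|perm (X ± E_ab)| ≥ R`, `perm (X - E_ab) = - perm (X + E_ab)` for all `a, b`, such
that no `G_i` vanishes at a complex matrix `Y` with `|Y_ab - X_ab| ≤ R` for all `a, b`;
(2) if `G ≠ 0` is a polynomial over a field `L` of characteristic zero whose form of top degree is
a multiple of the permanent (for instance, `G` is a nonzero multiple of the permanent), then no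
polynomial in the class `A` over a valued field `K ⊇ L` (`L` trivially valued) has the coefficients
of `G`, up to elements of valuation less than one. -/
def Fail (n : ℕ) (A : ∀ (K : Type) [Field K], MvPolynomial (Fin n × Fin n) K → Prop) : Prop :=
  (∀ (t : ℕ) (G : Fin t → MvPolynomial (Fin n × Fin n) ℂ), (∀ i, G i ≠ 0 ∧ A ℂ (G i)) →
    ∀ R : ℕ, ∃ X : Matrix (Fin n) (Fin n) ℤ, X.permanent = 0 ∧
      (∀ a b, (R : ℤ) ≤ |(X + Matrix.single a b 1).permanent| ∧
        (X - Matrix.single a b 1).permanent = -(X + Matrix.single a b 1).permanent) ∧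
      ∀ Y : Matrix (Fin n) (Fin n) ℂ, (∀ a b, ‖Y a b - X a b‖ ≤ R) →
        ∀ i, eval (fun p => Y p.1 p.2) (G i) ≠ 0) ∧
  (∀ (L K Γ : Type) [Field L] [CharZero L] [Field K] [LinearOrderedCommGroupWithZero Γ]
    [Algebra L K] (v : Valuation K Γ), (∀ x : L, v (algebraMap L K x) ≤ 1) →
    ∀ (G : MvPolynomial (Fin n × Fin n) L) (H : MvPolynomial (Fin n × Fin n) K), G ≠ 0 →
      perm n L ∣ homogeneousComponent G.totalDegree G → A K H →
      ¬ ∀ m, v (coeff m H - algebraMap L K (coeff m G)) < 1)

/-- There is an absolute constant `c > 0` such that for all `n ≥ 2`, `d ≥ 1`, `w ≥ 1`, with `F` the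
Fibonacci number of index `2 d + 3`, the following polynomials fail for the permanent:
(a) the polynomials computed by circuits with `s` gates, at most `d` product gates or arbitrary
gates on each path and arbitrary gates of fan-in `w`, if `s + n ^ w < exp (c n ^ (1 / (F - 1)))`;
(b) the sums of `T ≥ 1` products of powers of `S` polynomials, each of which is computed by a
circuit with `s` gates, at most `d - 1` product gates or arbitrary gates on each path and arbitrary
gates of fan-in `w`, if `log (2 n) log (2 n T) (log (s + S + n ^ w) / c) ^ (F - 3) < c n`. -/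
theorem result : ∃ c : ℝ, 0 < c ∧ ∀ n d w s : ℕ, 2 ≤ n → 1 ≤ d → 1 ≤ w →
    (s + (n : ℝ) ^ w < Real.exp (c * (n : ℝ) ^ (1 / ((Nat.fib (2 * d + 3) : ℝ) - 1))) →
      Fail n (Computed d w s)) ∧
    ∀ S T : ℕ, 1 ≤ T → Real.log (2 * n) * Real.log (2 * n * T) *
      (Real.log (s + S + (n : ℝ) ^ w) / c) ^ (Nat.fib (2 * d + 3) - 3) < c * n →
      Fail n (SumOfProducts (d - 1) w s S T) := by
  obtain ⟨C, hC, h⟩ := Pool.XMP.xmp
  refine ⟨1 / (12 * C), by positivity, fun n d w s hn hd hw => ?_⟩
  obtain ⟨k, rfl⟩ : ∃ k, d = k + 1 := ⟨d - 1, by omega⟩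
  rw [show 2 * (k + 1) + 3 = 2 * k + 5 by ring, show k + 1 - 1 = k by omega]
  have key : ∀ A : ∀ (K : Type) [Field K], MvPolynomial (Fin n × Fin n) K → Prop,
      (∀ (L K Γ : Type) [Field L] [CharZero L] [Field K] [LinearOrderedCommGroupWithZero Γ]
        [Algebra L K] (v : Valuation K Γ), (∀ x : L, v (algebraMap L K x) ≤ 1) →
        ∀ (G : MvPolynomial (Fin n × Fin n) L) (H : MvPolynomial (Fin n × Fin n) K), G ≠ 0 →
          perm n L ∣ homogeneousComponent G.totalDegree G → A K H →
          ¬ ∀ m, v (coeff m H - algebraMap L K (coeff m G)) < 1) → Fail n A := by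
    intro A hA
    refine ⟨fun t G hG R => ?_, hA⟩
    refine Pool.HY.box_int n t hn G (fun i hdvd => ?_) R
    refine hA ℂ ℂ (WithZero (Multiplicative ℤ)) (1 : Valuation ℂ (WithZero (Multiplicative ℤ)))
      (fun x => Valuation.one_apply_le_one x) (G i) (G i) (hG i).1 hdvd (hG i).2 fun m => ?_
    rw [Algebra.algebraMap_self, RingHom.id_apply, sub_self, map_zero]
    exact zero_lt_one
  refine ⟨fun hs => key _ ?_, fun S T hT hs => key _ ?_⟩
  · intro L K Γ _ _ _ _ _ v hv G H hG hPG ⟨P, hP, g, hg⟩ hcl
    rw [← hg] at hcl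
    have h1 := Pool.XMP.circ_exp v hC h hn hw hv P hP g G hG hPG hcl
    linarith
  · intro L K Γ _ _ _ _ _ v hv G H hG hPG ⟨f, e, hf, hH⟩ hcl
    rw [hH] at hcl
    have h1 := Pool.XMP.sumprod_le v hC h hn hw hT hv f e hf G hG hPG hcl
    linarith

end Pool.Agent.Results.MP_381749_lc.CircuitTests
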