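import Pool.Agent.XDB.Core
import Pool.Agent.XP.Assembly
import Pool.Agent.XD.CircUnifW

/-!
# The permanent needs circuits of exponential size at every constant depth
-/

set_option autoImplicit false

namespace Pool.Agent.Results.MP_381749_lc.ConstantDepthCircuits

open Finset MvPolynomial

/-- `P 0, ..., P (s - 1)` are the polynomials at the `s` gates of an arithmetic circuit over the
field `K` with at most `d` product gates or arbitrary gates on each path. Every gate is a sum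
gate: a linear combination of the constant `1`, of the variables and of earlier gates; or a product
gate: a constant times a product of powers of variables and of earlier gates; or an arbitrary
gate: any polynomial in `w` earlier gates. -/
def IsCircuit {σ K : Type} [Fintype σ] [Field K] (d w : ℕ) {s : ℕ}
    (P : Fin s → MvPolynomial σ K) : Prop :=
  ∃ depth : Fin s → ℕ, ∀ g, depth g ≤ d ∧
    ((∃ (a₀ : K) (a : σ → K) (c : Fin s → K), (∀ h, c h ≠ 0 → h < g ∧ depth h ≤ depth g) ∧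
        P g = C a₀ + ∑ v, C (a v) * X v + ∑ h, C (c h) * P h) ∨
     (∃ (a₀ : K) (a : σ → ℕ) (e : Fin s → ℕ), 0 < depth g ∧
        (∀ h, e h ≠ 0 → h < g ∧ depth h < depth g) ∧
        P g = C a₀ * (∏ v, X v ^ a v) * ∏ h, P h ^ e h) ∨
     (∃ (t : Fin w → Fin s) (Q : MvPolynomial (Fin w) K), 0 < depth g ∧
        (∀ i, t i < g ∧ depth (t i) < depth g) ∧ P g = aeval (fun i => P (t i)) Q))

/-- The permanent of the `n × n` matrix of variables. -/
noncomputable def perm (n : ℕ) (K : Type) [CommRing K] : MvPolynomial (Fin n × Fin n) K :=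
  (Matrix.of fun i j => (X (i, j) : MvPolynomial (Fin n × Fin n) K)).permanent

/-- `G` is `H` up to a polynomial all of whose coefficients have valuation less than one. -/
def Approx {σ K Γ : Type} [Field K] [LinearOrderedCommGroupWithZero Γ] (v : Valuation K Γ)
    (G H : MvPolynomial σ K) : Prop :=
  ∀ m, v (coeff m (G - H)) < 1

/-- There is an absolute constant `C` such that the following holds for all fields `K` (of any
characteristic) with a valuation `v`, all `n` and all `d, w ≥ 1`. If a circuit over `K` with `s` gates,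
with arbitrary gates of fan-in `w` and at most `d` product gates or arbitrary gates on each path has
a gate which is the permanent of the `n × n` matrix of variables up to coefficients of valuation less
than one, then `s + n ^ w ≥ exp (n ^ (1 / (2 F - 3)) / C)`, where `F` is the Fibonacci number of index
`2 d + 2`; and `s + n ^ w ≥ exp (n ^ (1 / (F - 1)) / C)` if all nonzero natural numbers have valuation
one (so `K` has characteristic zero). -/
theorem result : ∃ C : ℝ, 0 < C ∧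
    ∀ (K Γ : Type) [Field K] [LinearOrderedCommGroupWithZero Γ] (v : Valuation K Γ)
      (n w d s : ℕ) (P : Fin s → MvPolynomial (Fin n × Fin n) K), 1 ≤ w → 1 ≤ d →
        IsCircuit d w P → (∃ g, Approx v (P g) (perm n K)) →
        Real.exp ((n : ℝ) ^ (1 / (2 * (Nat.fib (2 * d + 2) : ℝ) - 3)) / C) ≤ s + (n : ℝ) ^ w ∧
        ((∀ a : ℕ, a ≠ 0 → v a = 1) →
          Real.exp ((n : ℝ) ^ (1 / ((Nat.fib (2 * d + 2) : ℝ) - 1)) / C) ≤ s + (n : ℝ) ^ w) := by
  obtain ⟨C₁, hC₁, h₁⟩ := Pool.XDB.xdb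
  obtain ⟨C₂, hC₂, h₂⟩ := Pool.XP.xp
  obtain ⟨c₁, hc₁, h₁'⟩ := Pool.XD.circ_unifW (fun k => 2 * (Nat.fib (2 * k + 4) - 2)) hC₁
    (fun K _ n F => ∃ (Γ : Type) (_ : LinearOrderedCommGroupWithZero Γ) (v : Valuation K Γ),
      ∀ m, v (coeff m (F - Pool.CDep.permP n K)) < 1)
    (fun k w K _ n T S f hw _ _ hS hf hQ => by
      obtain ⟨Γ, _, v, hF⟩ := hQ
      exact h₁ K Γ v k n T S w w f hS hw hw hf hF)
  obtain ⟨c₂, hc₂, h₂'⟩ := Pool.XD.circ_unifW (fun k => Nat.fib (2 * k + 4) - 2) hC₂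
    (fun K _ n F => ∃ (Γ : Type) (_ : LinearOrderedCommGroupWithZero Γ) (v : Valuation K Γ),
      (∀ a : ℕ, a ≠ 0 → v a = 1) ∧ ∀ m, v (coeff m (F - Pool.CDep.permP n K)) < 1)
    (fun k w K _ n T S f hw _ _ hS hf hQ => by
      obtain ⟨Γ, _, v, hv, hF⟩ := hQ
      exact h₂ k K Γ v n T S w w f hv hS hw hw hf hF)
  obtain ⟨D, hD⟩ : ∃ D : ℝ, D = 1 / c₁ + 1 / c₂ := ⟨_, rfl⟩
  have i1 : 0 < 1 / c₁ := by positivity
  have i2 : 0 < 1 / c₂ := by positivity
  have hD0 : 0 < D := by rw [hD]; linarith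
  have hD1 : 1 / D ≤ c₁ := by
    rw [one_div_le hD0 hc₁, hD]
    linarith
  have hD2 : 1 / D ≤ c₂ := by
    rw [one_div_le hD0 hc₂, hD]
    linarith
  refine ⟨D, hD0, fun K Γ _ _ v n w d s P hw hd hP hg => ?_⟩
  obtain ⟨k, rfl⟩ : ∃ k, d = k + 1 := ⟨d - 1, by omega⟩
  obtain ⟨g, hg⟩ := hg
  have h3 : 3 ≤ Nat.fib (2 * k + 4) := by
    have : Nat.fib 4 ≤ Nat.fib (2 * k + 4) := Nat.fib_mono (by omega)
    exact this
  have hsub : ((Nat.fib (2 * k + 4) - 2 : ℕ) : ℝ) = (Nat.fib (2 * k + 4) : ℝ) - 2 := by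
    push_cast [Nat.cast_sub (show 2 ≤ Nat.fib (2 * k + 4) by omega)]
    ring
  have e1 : ((2 * (Nat.fib (2 * k + 4) - 2) : ℕ) : ℝ) + 1 =
      2 * (Nat.fib (2 * (k + 1) + 2) : ℝ) - 3 := by
    rw [show 2 * (k + 1) + 2 = 2 * k + 4 by ring, Nat.cast_mul, hsub]
    push_cast
    ring
  have e2 : ((Nat.fib (2 * k + 4) - 2 : ℕ) : ℝ) + 1 = (Nat.fib (2 * (k + 1) + 2) : ℝ) - 1 := by
    rw [show 2 * (k + 1) + 2 = 2 * k + 4 by ring, hsub]
    ring
  have hmono : ∀ {c e : ℝ}, 1 / D ≤ c →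
      Real.exp (c * (n : ℝ) ^ e) ≤ s + (n : ℝ) ^ w →
      Real.exp ((n : ℝ) ^ e / D) ≤ s + (n : ℝ) ^ w := by
    intro c e hc h
    refine le_trans (Real.exp_le_exp.2 ?_) h
    rw [div_eq_mul_one_div, mul_comm]
    exact mul_le_mul_of_nonneg_right hc (Real.rpow_nonneg (Nat.cast_nonneg n) e)
  refine ⟨?_, fun hv => ?_⟩
  · have h4 := h₁' k w K n s P hw hP ⟨g, Γ, inferInstance, v, hg⟩
    simp only [e1] at h4
    exact hmono hD1 h4
  · have h4 := h₂' k w K n s P hw hP ⟨g, Γ, inferInstance, v, hv, hg⟩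
    simp only [e2] at h4
    exact hmono hD2 h4

end Pool.Agent.Results.MP_381749_lc.ConstantDepthCircuits
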