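import Pool.Agent.Helper97.HY.Final

/-!
# Deciding whether a permanent vanishes: multiplications and queries to determinants

Deciding whether the permanent of an integer matrix is `0` is complete for the class `C₌P`. We
consider algorithms which compute numbers `g₁, g₂, ...` from the input `X` (an `n × n` matrix) by
additions and multiplications, and ask queries to matrices formed from these numbers: vanishing or
signs of determinants and Pfaffians, ranks, inertia of symmetric matrices, ... The number of
queries is finite, but not limited otherwise, so they may depend on the answers to other ones and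
on random strings. Let `q (X)` be the list of all the answers. All that we need is that `q` is
constant near each real `X` with `G₁ (X) ≠ 0, ..., G_k (X) ≠ 0`, where each `G_i ≠ 0` is the
Pfaffian of a matrix of size `2 m` (for instance a determinant of order `m`) whose entries are
polynomials of degree at most `δ` in `X, g₁, ..., g_L`, where `g_j` is a polynomial of degree at
most `δ + 1` in `X, g₁, ..., g_{j-1}`, or a limit of such polynomials. `result`: if

  `max (m, n ^ 2) δ (2 δ) ^ (L / (c n ^ 2)) < c n ^ 3`

then for each `R` there is an integer matrix `X` with `perm X = 0` such that `q` is constant on the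
box of radius `R` around `X` (no `G_i` vanishes there, even at complex matrices), but changing one
entry of `X` by `1` or `-1` gives matrices with permanents `M`, `-M`, where `|M| ≥ R`. So the
algorithm determines neither whether the permanent is `0` nor its sign or an approximate value.
For instance `δ = 1` and `m ≤ n ^ 2`, `L ≤ c' n ^ 2 log n`, or `L = 0`, `m < c n ^ 3`.

For `G₁ = perm` this contains lower bounds for the number of multiplications and for the
determinantal complexity of the permanent, and the permanent divides no nonzero limit of such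
Pfaffians.

Proof. (`Helper45/PT`, `RQ/IntPt`, `HY/Box`) Let the permanent, which is prime, divide none of the
leading forms `T_i` of the `G_i`, which are limits of multiples of dilated Pfaffians as well. Then
there is an integer matrix `X₀` with `perm X₀ = 0` at which no `T_i` and no permanental minor of
order `n - 1` vanishes, and for large `t` no `G_i` vanishes in the box of radius `R` around
`X = t X₀`.

Let `P = perm` divide `G ≠ 0`, and let `G` be the limit of `pf A_s`.

1. (`HY/Chain`) Expanding along the first row we get a nonzero sub-Pfaffian `D_s` of size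
`2 (m - 1)`; a subsequence of the normalized ones converges to `G' ≠ 0`. We go on if `P ∣ G'`. At
the end the Pfaffian is `1`. Thus at some step we have `P ∣ G₁`, `P ∤ G₂`, and `G₁ + t G₂` is a
limit of Pfaffians of size `2 j`, `j ≤ m`, for all `t`: we add a multiple of `t` to one entry.

2. (`Helper97/CD/Class`) For some affine substitution `f` the polynomial `P ∘ f` in `N + 1`
variables, `N ~ n ^ 2`, has `exp (c n ^ 2 log n)` nondegenerate critical points (of the first
coordinate on the hypersurface `P ∘ f = 0`). (`RQ/Dens`, `RQ/Param`, `RQ/Gen`) Let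
`G₁ = P ^ (a + 1) Q`, where `P ∤ Q`. After a small change of `f` the product `Q G₂` does not
vanish at the images of these points.

3. (`RQ/Scale`) Let `p`, `q`, `g` be the values of `P`, `Q`, `G₂` at `f`. For small `s` the
polynomial `p ^ (a + 1) q + s ^ (a + 1) g` has nondegenerate critical points near the ones of `p`,
where `p = s τ` and `τ ^ (a + 1) = - g / q`. (`RQ/Compact`, `HY/Core`) So we get as many
nondegenerate critical points for a Pfaffian of size `2 j` of computed entries.

4. (`HY/Sys`, `HY/Jac`, `HY/Crit`, `HY/Count`, `HY/Num`) The critical points of such a Pfaffian are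
nondegenerate solutions of a Lagrange system: unknowns are the point `y` and the numbers `g_j`
(`N + 4 + L` with three auxiliary ones), a pair of kernel vectors and multipliers of the equations
for the `g_j` (`4 j + L`); `4 j` equations of bidegree `(δ, 1)`, `N + 4 + L` of bidegree `(δ, 2)`
and `L` of bidegree `(δ + 1, 0)`. So their number is at most
`(C δ (j / N + 1)) ^ (N + 4) (C δ) ^ L`.
-/

set_option autoImplicit false

namespace Pool.Agent.Results.MP_381749_lc.PermanentTests

open MvPolynomial Pool.HY

/-- Let `max (m, n ^ 2) δ (2 δ) ^ (L / (c n ^ 2)) < c n ^ 3`, `1 ≤ δ`. Let `G₁, ..., G_k` be nonzero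
polynomials in the entries of an `n × n` matrix, each of them a limit (coefficient by coefficient)
of Pfaffians of matrices of size `2 m` whose entries are polynomials over `ℂ` of degree at most `δ`
in the entries and in `g₁, ..., g_L`, where `g_j` is a polynomial of degree at most `δ + 1` in the
entries and in `g₁, ..., g_{j-1}`. Let `q` be a function of real matrices which is constant near
each `X` with `G₁ (X), ..., G_k (X) ≠ 0`. Then for each `R` there is an integer matrix `X` with
`perm X = 0` such that `q (Y) = q (X)` for all real `Y` with `|Y_ab - X_ab| ≤ R`, no `G_i` vanishes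
at any complex `Y` with `|Y_ab - X_ab| ≤ R`, and changing any entry of `X` by `1` or `-1` gives
matrices with opposite permanents of absolute value at least `R`. -/
theorem result : ∃ c : ℝ, 0 < c ∧ ∀ n m δ L k : ℕ, 1 ≤ δ →
    (max m (n ^ 2) : ℕ) * δ * (2 * δ : ℝ) ^ ((L : ℝ) / (c * (n : ℝ) ^ 2)) < c * (n : ℝ) ^ 3 →
    ∀ G : Fin k → MvPolynomial (Fin n × Fin n) ℂ, (∀ i, G i ≠ 0) →
    (∀ i, ∀ ε : ℝ, 0 < ε → ∃ (g : Fin L → MvPolynomial (Fin n × Fin n) ℂ)
      (A : Matrix (Fin (2 * m)) (Fin (2 * m)) (MvPolynomial (Fin n × Fin n) ℂ)),
        (∀ j, g j ∈ Pol (Set.range MvPolynomial.X ∪ g '' Set.Iio j) (δ + 1)) ∧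
        (∀ a b, A a b ∈ Pol (Set.range MvPolynomial.X ∪ Set.range g) δ) ∧
          ∀ s : Fin n × Fin n →₀ ℕ, ‖coeff s (Pool.PF.pf m A) - coeff s (G i)‖ < ε) →
    ∀ (α : Type) (q : Matrix (Fin n) (Fin n) ℝ → α),
    (∀ X : Matrix (Fin n) (Fin n) ℝ, (∀ i, eval (fun p => (X p.1 p.2 : ℂ)) (G i) ≠ 0) →
      ∃ ε : ℝ, 0 < ε ∧
        ∀ Y : Matrix (Fin n) (Fin n) ℝ, (∀ a b, |Y a b - X a b| < ε) → q Y = q X) →
    ∀ R : ℕ, ∃ X : Matrix (Fin n) (Fin n) ℤ, X.permanent = 0 ∧
      (∀ a b, (R : ℤ) ≤ |(X + Matrix.single a b 1).permanent| ∧
        (X - Matrix.single a b 1).permanent = -(X + Matrix.single a b 1).permanent) ∧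
      (∀ Y : Matrix (Fin n) (Fin n) ℂ, (∀ a b, ‖Y a b - X a b‖ ≤ R) →
        ∀ i, eval (fun p => Y p.1 p.2) (G i) ≠ 0) ∧
      ∀ Y : Matrix (Fin n) (Fin n) ℝ, (∀ a b, |Y a b - X a b| ≤ R) →
        q Y = q (X.map (Int.cast : ℤ → ℝ)) := by
  obtain ⟨c, hc, H⟩ := Pool.HY.final_box
  refine ⟨c, hc, fun n m δ L k hδ hlt G h0 hG α q hq R => ?_⟩
  refine H n m δ L k hδ hlt G (fun i => ⟨h0 i, fun ε hε => ?_⟩) α q hq R
  obtain ⟨g, A, hg, hA, hs⟩ := hG i ε hε
  exact ⟨_, ⟨g, hg, A, hA, rfl⟩, hs⟩

end Pool.Agent.Results.MP_381749_lc.PermanentTests
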